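import Mathlib

namespace Pool.Agent.Results.MP_79bc23_co.Counter

/-- A cutset: a subset meeting every maximal chain. -/
def IsCutset {P : Type} [PartialOrder P] (S : Set P) : Prop :=
  ∀ C : Set P, IsMaxChain (· ≤ ·) C → (C ∩ S).Nonempty

/-- A chain cutset for `x`: a chain `K` of elements incomparable to `x` such that
`K ∪ {x}` is a cutset. -/
def IsChainCutsetFor {P : Type} [PartialOrder P] (x : P) (K : Set P) : Prop :=
  IsChain (· ≤ ·) K ∧ (∀ k ∈ K, ¬ k ≤ x ∧ ¬ x ≤ k) ∧ IsCutset (insert x K)

/-- Up-sets of the 16-element example, as bit masks. -/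
def up (i : Fin 16) : ℕ :=
  ([65015, 48518, 8324, 65272, 61680, 57568, 8384, 8320, 48384, 48640, 48128, 47104, 45056, 8192, 49152, 32768] : List ℕ).getD i.val 0

def leB (i j : Fin 16) : Bool := (up i).testBit j.val

def Kc (i : Fin 16) : List (Fin 16) :=
  ([[3], [3, 4], [3, 4, 12], [0, 1, 2], [1, 8, 10], [1, 10, 12], [1, 10, 12, 15], [8, 10, 12, 15], [3, 4, 7], [0, 4], [4, 7], [4, 7], [5, 7], [14, 15], [1, 12, 13], [13]] : List (List (Fin 16))).getD i.val []

def Inc (i : Fin 16) : List (Fin 16) :=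
  ([[3, 9], [3, 4, 5, 6, 9, 14], [3, 4, 5, 6, 8, 9, 10, 11, 12, 14, 15], [0, 1, 2, 8], [1, 2, 8, 9, 10, 11], [1, 2, 8, 9, 10, 11, 12], [1, 2, 8, 9, 10, 11, 12, 14, 15], [8, 9, 10, 11, 12, 14, 15], [2, 3, 4, 5, 6, 7, 9, 14], [0, 1, 2, 4, 5, 6, 7, 8, 14], [2, 4, 5, 6, 7, 14], [2, 4, 5, 6, 7, 14], [2, 5, 6, 7, 14], [14, 15], [1, 2, 6, 7, 8, 9, 10, 11, 12, 13], [2, 6, 7, 13]] : List (List (Fin 16))).getD i.val []

def Q : Type := Fin 16

instance : PartialOrder Q where
  le a b := leB a b = true
  le_refl := by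
    show ∀ a : Fin 16, leB a a = true
    decide +kernel
  le_trans := by
    show ∀ a b c : Fin 16, leB a b = true → leB b c = true → leB a c = true
    decide +kernel
  le_antisymm := by
    show ∀ a b : Fin 16, leB a b = true → leB b a = true → a = b
    decide +kernel

lemma inc_iff : ∀ a b : Fin 16, b ∈ Inc a ↔ (¬ leB a b = true ∧ ¬ leB b a = true) := by
  decide +kernel

def g (l : List Bool) (i : Fin 16) : Bool := l.getD i.val false

def allB (p : Bool → Bool) : Bool := p true && p false

lemma allB_spec {p : Bool → Bool} (h : allB p = true) (b : Bool) : p b = true := by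
  unfold allB at h
  rw [Bool.and_eq_true] at h
  cases b
  · exact h.2
  · exact h.1

lemma or_spec {c r : Bool} (h : (c || r) = true) (hc : c = false) : r = true := by
  rw [hc] at h
  exact h

def fin (l : List Bool) : Bool :=
  !((List.finRange 16).all (fun i => g l i || (Inc i).any (g l))) ||
    (List.finRange 16).all (fun i => g l i || (Kc i).any (g l))

lemma key : allB (fun b0 =>
    allB (fun b1 =>
    allB (fun b2 =>
    allB (fun b3 => (b3 && (b0 || (b1 || (b2 || false)))) ||
    allB (fun b4 => (b4 && (b1 || (b2 || false))) ||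
    allB (fun b5 => (b5 && (b1 || (b2 || false))) ||
    allB (fun b6 => (b6 && (b1 || (b2 || false))) ||
    allB (fun b7 =>
    allB (fun b8 => (b8 && (b2 || (b3 || (b4 || (b5 || (b6 || (b7 || false))))))) ||
    allB (fun b9 => (b9 && (b0 || (b1 || (b2 || (b4 || (b5 || (b6 || (b7 || (b8 || false))))))))) ||
    allB (fun b10 => (b10 && (b2 || (b4 || (b5 || (b6 || (b7 || false)))))) ||
    allB (fun b11 => (b11 && (b2 || (b4 || (b5 || (b6 || (b7 || false)))))) ||
    allB (fun b12 => (b12 && (b2 || (b5 || (b6 || (b7 || false))))) ||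
    allB (fun b13 =>
    allB (fun b14 => (b14 && (b1 || (b2 || (b6 || (b7 || (b8 || (b9 || (b10 || (b11 || (b12 || (b13 || false))))))))))) ||
    allB (fun b15 => (b15 && (b2 || (b6 || (b7 || (b13 || false))))) ||
    fin [b0, b1, b2, b3, b4, b5, b6, b7, b8, b9, b10, b11, b12, b13, b14, b15])))))))))))))))) = true := by
  decide +kernel

lemma cut (f : Fin 16 → Bool) (H1 : ∀ i j, j ∈ Inc i → f i = true → f j = false)
    (H2 : ∀ i, (∀ j ∈ Inc i, f j = false) → f i = true) :
    ∀ x, f x = true ∨ ∃ k ∈ Kc x, f k = true := by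
  have hg : g [f 0, f 1, f 2, f 3, f 4, f 5, f 6, f 7, f 8, f 9, f 10, f 11, f 12, f 13, f 14, f 15] = f := by
    funext i
    fin_cases i <;> rfl
  have H1' : ∀ (i : Fin 16) (L : List (Fin 16)), (∀ j ∈ L, j ∈ Inc i) →
      (f i && L.any f) = false := by
    intro i L hL
    cases hi : f i with
    | false => rfl
    | true =>
      rw [Bool.true_and, List.any_eq_false]
      intro j hj
      rw [H1 i j (hL j hj) hi]
      exact Bool.false_ne_true
  have k0 := allB_spec key (f 0)
  have k1 := allB_spec k0 (f 1)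
  have k2 := allB_spec k1 (f 2)
  have k3 := or_spec (allB_spec k2 (f 3)) (H1' 3 [0, 1, 2] (by decide))
  have k4 := or_spec (allB_spec k3 (f 4)) (H1' 4 [1, 2] (by decide))
  have k5 := or_spec (allB_spec k4 (f 5)) (H1' 5 [1, 2] (by decide))
  have k6 := or_spec (allB_spec k5 (f 6)) (H1' 6 [1, 2] (by decide))
  have k7 := allB_spec k6 (f 7)
  have k8 := or_spec (allB_spec k7 (f 8)) (H1' 8 [2, 3, 4, 5, 6, 7] (by decide))
  have k9 := or_spec (allB_spec k8 (f 9)) (H1' 9 [0, 1, 2, 4, 5, 6, 7, 8] (by decide))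
  have k10 := or_spec (allB_spec k9 (f 10)) (H1' 10 [2, 4, 5, 6, 7] (by decide))
  have k11 := or_spec (allB_spec k10 (f 11)) (H1' 11 [2, 4, 5, 6, 7] (by decide))
  have k12 := or_spec (allB_spec k11 (f 12)) (H1' 12 [2, 5, 6, 7] (by decide))
  have k13 := allB_spec k12 (f 13)
  have k14 := or_spec (allB_spec k13 (f 14)) (H1' 14 [1, 2, 6, 7, 8, 9, 10, 11, 12, 13] (by decide))
  have k15 := or_spec (allB_spec k14 (f 15)) (H1' 15 [2, 6, 7, 13] (by decide))
  have h : (List.finRange 16).all (fun i => g [f 0, f 1, f 2, f 3, f 4, f 5, f 6, f 7, f 8, f 9, f 10, f 11, f 12, f 13, f 14, f 15] i ||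
      (Inc i).any (g [f 0, f 1, f 2, f 3, f 4, f 5, f 6, f 7, f 8, f 9, f 10, f 11, f 12, f 13, f 14, f 15])) = true →
      (List.finRange 16).all (fun i => g [f 0, f 1, f 2, f 3, f 4, f 5, f 6, f 7, f 8, f 9, f 10, f 11, f 12, f 13, f 14, f 15] i ||
      (Kc i).any (g [f 0, f 1, f 2, f 3, f 4, f 5, f 6, f 7, f 8, f 9, f 10, f 11, f 12, f 13, f 14, f 15])) = true := by
    intro h0
    refine or_spec k15 ?_
    rw [h0]
    rfl
  rw [hg] at h
  have h2 := h (by
    rw [List.all_eq_true]
    intro i _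
    cases hany : (Inc i).any f with
    | true => exact Bool.or_true _
    | false =>
      rw [Bool.or_false]
      apply H2
      intro j hj
      rw [List.any_eq_false] at hany
      exact Bool.eq_false_iff.2 (hany j hj))
  rw [List.all_eq_true] at h2
  intro x
  have h3 := h2 x (List.mem_finRange x)
  rw [Bool.or_eq_true, List.any_eq_true] at h3
  exact h3

lemma K_ok : ∀ x : Fin 16, (∀ a ∈ Kc x, ∀ b ∈ Kc x, leB a b = true ∨ leB b a = true) ∧
    ∀ k ∈ Kc x, ¬ leB k x = true ∧ ¬ leB x k = true := by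
  decide +kernel

theorem result : ∃ (P : Type) (_ : PartialOrder P), Finite P ∧
    (∀ x : P, ∃ K : Set P, IsChainCutsetFor x K) ∧
    ∃ A : Finset P, A.card = 5 ∧ IsAntichain (· ≤ ·) (A : Set P) := by
  classical
  refine ⟨Q, inferInstance, (inferInstance : Finite (Fin 16)), fun x => ?_, ?_⟩
  · refine ⟨{k | (k : Fin 16) ∈ Kc x}, ?_, ?_, ?_⟩
    · intro a ha b hb _
      exact (K_ok x).1 a ha b hb
    · intro k hk
      exact (K_ok x).2 k hk
    · intro C hC
      have hmem : ∀ z : Q, (∀ y ∈ C, z ≤ y ∨ y ≤ z) → z ∈ C := by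
        intro z hz
        have h1 : IsChain (· ≤ ·) (insert z C) := hC.1.insert (fun y hy _ => hz y hy)
        have h2 := hC.2 h1 (Set.subset_insert z C)
        rw [h2]
        exact Set.mem_insert z C
      have h := cut (fun i => decide ((show Q from i) ∈ C)) ?_ ?_ x
      · rcases h with h | ⟨k, hk, h⟩
        · exact ⟨x, of_decide_eq_true h, Set.mem_insert _ _⟩
        · exact ⟨k, of_decide_eq_true h, Set.mem_insert_of_mem _ hk⟩
      · intro i j hij hi
        have hi' : (show Q from i) ∈ C := of_decide_eq_true hi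
        apply decide_eq_false
        intro hj
        have hh := (inc_iff i j).1 hij
        by_cases e : (show Q from i) = (show Q from j)
        · apply hh.1
          have e' : i = j := e
          rw [e']
          exact le_refl (show Q from j)
        · rcases hC.1 hi' hj e with h | h
          · exact hh.1 h
          · exact hh.2 h
      · intro i hi
        apply decide_eq_true
        apply hmem
        intro y hy
        by_contra hcon
        have h1 : ¬ leB i y = true := fun h => hcon (Or.inl h)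
        have h2 : ¬ leB y i = true := fun h => hcon (Or.inr h)
        have h3 := hi y ((inc_iff i y).2 ⟨h1, h2⟩)
        exact (of_decide_eq_false h3) hy
  · refine ⟨(({2, 6, 8, 9, 14} : Finset (Fin 16)) : Finset Q), ?_, ?_⟩
    · show ({2, 6, 8, 9, 14} : Finset (Fin 16)).card = 5
      decide +kernel
    · have h : ∀ a ∈ ({2, 6, 8, 9, 14} : Finset (Fin 16)), ∀ b ∈ ({2, 6, 8, 9, 14} : Finset (Fin 16)),
          a ≠ b → ¬ leB a b = true := by
        decide +kernel
      intro a ha b hb hab
      exact h a ha b hb hab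

end Pool.Agent.Results.MP_79bc23_co.Counter
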